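import Pool.Agent.LKU.Stmts
import Pool.Agent.Helper51_LKT.GNP

/-!
# LKU, row GNB: generic points for the table of 53 brackets (edit of Helper51_LKT/GNP.lean)
-/

set_option autoImplicit false

namespace Pool.Agent.LKU.H44

open Pool.Agent.LKT Pool.Agent.LCK Pool.Agent.LKU
open Pool.Agent.LKT.H51 (M D_eq M_perm M_not M_upd M_zero upd_inj fi M_ne M_diff rw_same rw_add rw_sub rw')

/-- The indices of the table entry `i`. -/
def ee2 (i : Fin 53) : Fin 4 → Fin 8 :=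
  ![(tb2 i).1, (tb2 i).2.1, (tb2 i).2.2.1, (tb2 i).2.2.2.1]

theorem ee2_lt : ∀ i : Fin 53, (tb2 i).1 < (tb2 i).2.1 ∧ (tb2 i).2.1 < (tb2 i).2.2.1 ∧
    (tb2 i).2.2.1 < (tb2 i).2.2.2.1 ∧ (tb2 i).2.2.2.2 ≠ 0 := by
  decide +kernel

theorem ee2_inj : ∀ i : Fin 53, ∀ r r' : Fin 4, ee2 i r = ee2 i r' → r = r' := by
  decide +kernel

theorem ee2_ne : ∀ i j : Fin 53, i ≠ j → ∃ r : Fin 4, ∀ r' : Fin 4, ee2 j r' ≠ ee2 i r := by
  decide +kernel

theorem ee2_a : ∀ i : Fin 53, ∀ r₀ : Fin 4, ∃ r, r ≠ r₀ ∧ fi (ee2 i r) := by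
  decide +kernel

theorem ee2_b : ∀ i : Fin 53, ∀ r₀ : Fin 4, ¬ fi (ee2 i r₀) →
    ∃ r r', r ≠ r₀ ∧ r' ≠ r₀ ∧ r ≠ r' ∧ fi (ee2 i r) ∧ fi (ee2 i r') := by
  decide +kernel

theorem ee2_c : ∀ i : Fin 53, ∀ r₀ r₁ : Fin 4, r₁ ≠ r₀ → (¬ fi (ee2 i r₀) ∨ ¬ fi (ee2 i r₁)) →
    ∃ r, r ≠ r₀ ∧ r ≠ r₁ ∧ fi (ee2 i r) := by
  decide +kernel

theorem gnb (_ : CrmStmt) : GnbStmt := by
  intro x h1 h2 k i j hij
  have hinj : ∀ i : Fin 53, Function.Injective (ee2 i) := fun i r r' h => ee2_inj i r r' h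
  have hF : ∀ (i : Fin 53) (x : Fin 8 → E3), F2 i x = ((tb2 i).2.2.2.2 : ℝ) * M x (ee2 i) := by
    intro i x
    unfold F2
    rw [D_eq]
    rfl
  have hsg : ∀ i : Fin 53, ((tb2 i).2.2.2.2 : ℝ) ≠ 0 := fun i => by
    exact_mod_cast (ee2_lt i).2.2.2
  have hMne := M_ne x h1
  unfold NP
  simp only [hF]
  by_cases hk : ∃ r₀, ee2 i r₀ = k
  swap
  · left
    intro y
    rw [M_not x (ee2 i) k y (fun r hr => hk ⟨r, hr⟩)]
    exact mul_ne_zero (hsg i) (hMne _ (hinj i))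
  obtain ⟨r₀, hr₀⟩ := hk
  right
  by_cases hkj : ∃ r₁, ee2 j r₁ = k
  swap
  · suffices h : ∃ y, M (Function.update x k y) (ee2 i) = 0 by
      obtain ⟨y, hy⟩ := h
      refine ⟨y, by rw [hy, mul_zero], ?_⟩
      rw [M_not x (ee2 j) k y (fun r hr => hkj ⟨r, hr⟩)]
      exact mul_ne_zero (hsg j) (hMne _ (hinj j))
    by_cases hf : fi k
    · obtain ⟨r, hr, hrf⟩ := ee2_a i r₀
      refine ⟨x (ee2 i r), ?_⟩
      rw [M_upd x (ee2 i) (hinj i) k _ r₀ hr₀ _ _ _ _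
        (rw_same x k (ee2 i r) ⟨fun _ => hf, fun _ => hrf⟩), M_zero x (ee2 i) r₀ r hr]
      ring
    · obtain ⟨r, r', hr, hr', -, hrf, hrf'⟩ := ee2_b i r₀ (hr₀ ▸ hf)
      refine ⟨x (ee2 i r) - x (ee2 i r'), ?_⟩
      rw [M_upd x (ee2 i) (hinj i) k _ r₀ hr₀ _ _ _ _
        (rw_sub x k (ee2 i r) (ee2 i r') hf hrf hrf'), M_zero x (ee2 i) r₀ r hr,
        M_zero x (ee2 i) r₀ r' hr']
      ring
  obtain ⟨r₁, hr₁⟩ := hkj
  -- `k` is in both sets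
  have hin : ∀ r, (∀ r', ee2 j r' ≠ ee2 i r) → r ≠ r₀ := by
    rintro r hr rfl
    exact hr r₁ (hr₁.trans hr₀.symm)
  have hnew : ∀ b : Fin 8, (∀ r', ee2 j r' ≠ b) → M x (Function.update (ee2 j) r₁ b) ≠ 0 :=
    fun b hb => hMne _ (upd_inj (ee2 j) (hinj j) r₁ b fun r _ => hb r)
  have hz : ∀ c : Fin 8, c ≠ k → (∃ r', ee2 j r' = c) → M x (Function.update (ee2 j) r₁ c) = 0 := by
    rintro c hck ⟨r', rfl⟩
    refine M_zero x (ee2 j) r₁ r' ?_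
    rintro rfl
    exact hck hr₁
  -- a point of the same type which is in `i` and not in `j`
  have hsame : ∀ r, (∀ r', ee2 j r' ≠ ee2 i r) → (fi (ee2 i r) ↔ fi k) →
      ∃ y, ((tb2 i).2.2.2.2 : ℝ) * M (Function.update x k y) (ee2 i) = 0 ∧
        ((tb2 j).2.2.2.2 : ℝ) * M (Function.update x k y) (ee2 j) ≠ 0 := by
    intro r hr hf
    refine ⟨x (ee2 i r), ?_, ?_⟩
    · rw [M_upd x (ee2 i) (hinj i) k _ r₀ hr₀ _ _ _ _ (rw_same x k (ee2 i r) hf),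
        M_zero x (ee2 i) r₀ r (hin r hr)]
      ring
    · rw [M_upd x (ee2 j) (hinj j) k _ r₁ hr₁ _ _ _ _ (rw_same x k (ee2 i r) hf)]
      refine mul_ne_zero (hsg j) ?_
      rw [one_mul, zero_mul, add_zero]
      exact hnew _ hr
  obtain ⟨r, hr⟩ := ee2_ne i j hij
  have hrr₀ := hin r hr
  by_cases hf : fi k
  · by_cases hrf : fi (ee2 i r)
    · exact hsame r hr ⟨fun _ => hf, fun _ => hrf⟩
    · obtain ⟨s, hs0, hs1, hsf⟩ := ee2_c i r₀ r hrr₀ (Or.inr hrf)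
      by_cases hsj : ∃ r', ee2 j r' = ee2 i s
      · refine ⟨x (ee2 i s) + x (ee2 i r), ?_, ?_⟩
        · rw [M_upd x (ee2 i) (hinj i) k _ r₀ hr₀ _ _ _ _
            (rw_add x k (ee2 i r) (ee2 i s) hf hrf hsf), M_zero x (ee2 i) r₀ r hrr₀,
            M_zero x (ee2 i) r₀ s hs0]
          ring
        · rw [M_upd x (ee2 j) (hinj j) k _ r₁ hr₁ _ _ _ _
            (rw_add x k (ee2 i r) (ee2 i s) hf hrf hsf), hz (ee2 i s) (fun h => hs0
              (hinj i (h.trans hr₀.symm))) hsj]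
          refine mul_ne_zero (hsg j) ?_
          rw [mul_zero, zero_add, one_mul]
          exact hnew _ hr
      · push Not at hsj
        exact hsame s hsj ⟨fun _ => hf, fun _ => hsf⟩
  · by_cases hrf : fi (ee2 i r)
    · obtain ⟨s, hs0, hs1, hsf⟩ := ee2_c i r₀ r hrr₀ (Or.inl (hr₀ ▸ hf))
      refine ⟨x (ee2 i r) - x (ee2 i s), ?_, ?_⟩
      · rw [M_upd x (ee2 i) (hinj i) k _ r₀ hr₀ _ _ _ _
          (rw_sub x k (ee2 i r) (ee2 i s) hf hrf hsf), M_zero x (ee2 i) r₀ r hrr₀,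
          M_zero x (ee2 i) r₀ s hs0]
        ring
      · rw [M_upd x (ee2 j) (hinj j) k _ r₁ hr₁ _ _ _ _
          (rw_sub x k (ee2 i r) (ee2 i s) hf hrf hsf)]
        refine mul_ne_zero (hsg j) ?_
        by_cases hsj : ∃ r', ee2 j r' = ee2 i s
        · rw [hz (ee2 i s) (fun h => hs0 (hinj i (h.trans hr₀.symm))) hsj, mul_zero, add_zero,
            one_mul]
          exact hnew _ hr
        · push Not at hsj
          have h3 := M_diff x h2 (ee2 j) (hinj j) r₁ (ee2 i r) (ee2 i s) hrf hsf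
            (fun h => hs1 (hinj i h).symm) (fun r' _ => hr r') (fun r' _ => hsj r')
          intro h4
          apply h3
          linarith
    · exact hsame r hr ⟨fun h => absurd h hrf, fun h => absurd h hf⟩

end Pool.Agent.LKU.H44
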